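import Pool.Agent.Helper44.LP.Core
import Pool.Agent.Helper44.LP.Ray

/-!
# A graph of bounded degree which embeds coarsely into `L^p` but not into Hilbert space
-/

open MeasureTheory L2LP

universe u

/-- There is a connected graph of bounded degree which admits no coarse embedding into an inner
product space, and admits a coarse embedding into an `L^p`-space for every `p` with
`64 ≤ p < ∞`. -/
theorem Pool.Agent.Results.MP_278e22_gt.BoundedDegreeGraph.result :
    ∃ (V : Type) (G : SimpleGraph V), G.Connected ∧
      (∃ D : ℕ, ∀ v, (G.neighborSet v).encard ≤ D) ∧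
      (∀ (H : Type u) [NormedAddCommGroup H] [InnerProductSpace ℝ H] (f : V → H),
        ¬ CoarseEmb (fun x y => (G.dist x y : ℝ)) f) ∧
      (∀ (p : ENNReal) [Fact (1 ≤ p)], 64 ≤ p → p ≠ ⊤ →
        ∃ (O : Type) (_ : MeasurableSpace O) (mu : Measure O) (f : V → Lp ℝ p mu),
          CoarseEmb (fun x y => (G.dist x y : ℝ)) f) := by
  obtain ⟨Ga, iG, iF, S, J, iJ, F, U⟩ := core.{u}
  exact ray_graph U
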