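import Pool.Agent.Helper44.LP.Core
import Pool.Agent.Helper44.LP.Union
import Pool.Agent.Helper44.LP.CoarseUnionEx

/-!
# Finite Cayley graphs whose coarse disjoint union embeds coarsely into `L^p` but not into Hilbert
space
-/

open MeasureTheory L2LP

universe u

/-- There are finite groups `Ga n` and generating sets `S n` of at most six elements such that the
Cayley graphs have a coarse disjoint union, and every coarse disjoint union of them admits no coarse
embedding into an inner product space, and admits a coarse embedding into an `L^p`-space for every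
`p` with `64 ≤ p < ∞`. -/
theorem Pool.Agent.Results.MP_278e22_gt.FiniteCayleyGraphs.result :
    ∃ (Ga : ℕ → Type) (_ : ∀ n, Group (Ga n)) (_ : ∀ n, Finite (Ga n)) (S : ∀ n, Finset (Ga n)),
      (∀ n, (S n).card ≤ 6) ∧ (∀ n, Subgroup.closure (S n : Set (Ga n)) = ⊤) ∧
      (∃ d, IsCoarseUnion (fun n => SimpleGraph.mulCayley (S n : Set (Ga n))) d) ∧
      ∀ d, IsCoarseUnion (fun n => SimpleGraph.mulCayley (S n : Set (Ga n))) d →
        (∀ (H : Type u) [NormedAddCommGroup H] [InnerProductSpace ℝ H] (f : (Σ n, Ga n) → H),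
          ¬ CoarseEmb d f) ∧
        (∀ (p : ENNReal) [Fact (1 ≤ p)], 64 ≤ p → p ≠ ⊤ →
          ∃ (O : Type) (_ : MeasurableSpace O) (mu : Measure O) (f : (Σ n, Ga n) → Lp ℝ p mu),
            CoarseEmb d f) := by
  obtain ⟨Ga, iG, iF, S, J, iJ, F, U⟩ := core.{u}
  refine ⟨Ga, iG, fun n => inferInstance, S, U.card, U.gen, ?_, ?_⟩
  · exact exists_coarseUnion _ (fun n => cayley_connected _ (U.gen n))
  · intro d hd
    exact ⟨fun H _ _ f => union_hilbert U d hd H f, fun p _ hp hptop => union_lp U d hd p hp hptop⟩
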